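import Pool.Agent.Lib.MP_b94b02_co.Mix

set_option autoImplicit false

namespace Pool.Agent.Results.MP_b94b02_co.Compatible

open Pool.Agent.Lib.MP_b94b02_co Polynomial

/-- For `n ≥ 5` a nonnegative combination of the excedance polynomials of the even and of the odd
permutations is real-rooted exactly when `n ≥ 6` or `a ≤ 15 b`. -/
theorem result (n : ℕ) (hn : 5 ≤ n) (a b : ℝ) (ha : 0 ≤ a) (hb : 0 ≤ b) (hab : 0 < a + b) :
    RealRooted (C a * excPoly n 1 + C b * excPoly n (-1)) ↔ 6 ≤ n ∨ a ≤ 15 * b := by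
  rcases hn.lt_or_eq with h | h
  · exact ⟨fun _ => Or.inl h, fun _ => mix_six n h a b ha hb hab⟩
  · subst h
    rw [mix_five a b ha hb hab]
    exact ⟨Or.inr, fun h => h.resolve_left (by omega)⟩

end Pool.Agent.Results.MP_b94b02_co.Compatible
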